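import Pool.Agent.V11178.Span

/-!
# `φ±(ℤ_2 × ℤ_{2k}, [0, s]) = 2` outside the conjectured list

For `s = 5`, `k = 12` the set `{(0, 3), (1, 2)}` is `5`-spanning in `ℤ_2 × ℤ_24`,
although `12 > 3 · 5 - 4`.
-/

namespace Pool.Agent.Results.MP_26ecb3_co.Disproof

open Pool.Agent.V11178

/-- The conjectured list `L` of pairs `(s, k)`. -/
def L : Set (ℕ × ℕ) :=
  {p | (p.1 = 2 ∧ p.2 ∈ ({1, 2} : Set ℕ)) ∨
    (p.1 = 3 ∧ p.2 ∈ ({1, 2, 3, 4} : Set ℕ)) ∨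
    (p.1 = 4 ∧ p.2 ∈ ({1, 2, 3, 4, 5, 6, 8} : Set ℕ)) ∨
    (5 ≤ p.1 ∧ 1 ≤ p.2 ∧ (p.2 : ℤ) ≤ 3 * (p.1 : ℤ) - 4)}

theorem span : ∀ x : ZMod 2 × ZMod 24, ∃ l m : Fin 11,
    (((l : ℕ) : ℤ) - 5).natAbs + (((m : ℕ) : ℤ) - 5).natAbs ≤ 5 ∧
    ((l : ℕ) : ZMod 2) * 0 + ((m : ℕ) : ZMod 2) * 1 = x.1 + 1 ∧
    ((l : ℕ) : ZMod 24) * 3 + ((m : ℕ) : ZMod 24) * 2 = x.2 + 1 := by
  decide

theorem nospan : ∀ a : ZMod 2 × ZMod 24, ∃ x : ZMod 2 × ZMod 24, ∀ l : Fin 24,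
    ¬ (((l : ℕ) : ZMod 2) * a.1 = x.1 ∧ ((l : ℕ) : ZMod 24) * a.2 = x.2) := by
  decide

theorem smul24 (a : ZMod 2 × ZMod 24) : (24 : ℤ) • a = 0 := by
  obtain ⟨a1, a2⟩ := a
  simp only [Prod.smul_mk, zsmul_eq_mul]
  have e1 : ((24 : ℤ) : ZMod 2) = 0 := by decide
  have e2 : ((24 : ℤ) : ZMod 24) = 0 := by decide
  rw [e1, e2, zero_mul, zero_mul]
  rfl

/-- There are positive `s`, `k` with `(s, k) ∉ L` and `φ±(ℤ_2 × ℤ_{2k}, [0, s]) = 2`. -/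
theorem result : ∃ s k : ℕ, 0 < s ∧ 0 < k ∧ (s, k) ∉ L ∧
    phiPM (ZMod 2 × ZMod (2 * k)) s = 2 := by
  refine ⟨5, 12, by norm_num, by norm_num, ?_, ?_⟩
  · simp [L]
  · change phiPM (ZMod 2 × ZMod 24) 5 = 2
    have : Nontrivial (ZMod 2 × ZMod 24) := ⟨⟨(0, 0), (1, 0), by decide⟩⟩
    rw [phiPM_eq_two_iff]
    · refine ⟨(0, 3), (1, 2), ?_⟩
      intro x
      obtain ⟨l, m, h1, h2, h3⟩ := span x
      refine ⟨((l : ℕ) : ℤ) - 5, ((m : ℕ) : ℤ) - 5, h1, ?_⟩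
      obtain ⟨x1, x2⟩ := x
      simp only at h2 h3
      simp only [Prod.smul_mk, Prod.mk_add_mk, Prod.mk.injEq]
      simp only [zsmul_eq_mul]
      push_cast
      constructor
      · have e : (5 : ZMod 2) = 1 := by decide
        rw [e]
        linear_combination h2
      · have e : (24 : ZMod 24) = 0 := by decide
        linear_combination h3 - e
    · intro a ha
      rw [spanning_iff] at ha
      obtain ⟨x, hx⟩ := nospan a
      obtain ⟨c, -, hc⟩ := ha x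
      rw [Finset.sum_singleton] at hc
      have hmod : 0 ≤ c a % 24 ∧ c a % 24 < 24 := by omega
      apply hx ⟨(c a % 24).toNat, by omega⟩
      have h24 : c a • a = (c a % 24) • a := by
        conv_lhs => rw [← Int.emod_add_mul_ediv (c a) 24]
        rw [add_smul, mul_comm, mul_smul]
        rw [smul24 a, smul_zero, add_zero]
      rw [h24] at hc
      have hnat : (((c a % 24).toNat : ℕ) : ℤ) = c a % 24 := Int.toNat_of_nonneg hmod.1
      obtain ⟨a1, a2⟩ := a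
      obtain ⟨x1, x2⟩ := x
      simp only [Prod.smul_mk, Prod.mk.injEq, zsmul_eq_mul] at hc
      obtain ⟨hc1, hc2⟩ := hc
      constructor
      · simp only
        rw [← hc1, ← hnat]
        simp
      · simp only
        rw [← hc2, ← hnat]
        simp

end Pool.Agent.Results.MP_26ecb3_co.Disproof
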